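import Mathlib
import Pool.Agent.W953.PM.Defs
import Pool.Agent.Results.MP_d2e5f8_lc.MonotoneExp

/-!
# Partial MCSP on wide windows
-/

set_option autoImplicit false

namespace Pool.Agent.W953.PM

open Pool.Agent.H589R2 Pool.Agent.W953.NW Pool.Agent.W953.KC
open Pool.Agent (H540R2.Circuit)

section Ren

variable {n n' : ℕ} (f : Fin n → Fin n')

/-- renaming of variables -/
def litRen {s : ℕ} (l : Lit n s) : Lit n' s := (Sum.map f id l.1, l.2)

lemma litRen_val {s : ℕ} (x : Fin n' → Bool) (w : Fin s → Bool) (l : Lit n s) :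
    litVal x w (litRen f l) = litVal (x ∘ f) w l := by
  obtain ⟨l, b⟩ := l
  cases l <;> rfl

/-- renaming of variables -/
def gatesRen : {s : ℕ} → Gates n s → Gates n' s
  | _, .nil => .nil
  | _, .snoc p isOr a b => .snoc (gatesRen p) isOr (litRen f a) (litRen f b)

lemma gatesRen_val (x : Fin n' → Bool) : ∀ {s : ℕ} (p : Gates n s),
    (gatesRen f p).val x = p.val (x ∘ f) := by
  intro s p
  induction p with
  | nil => rfl
  | snoc p isOr a b ih =>
    simp only [gatesRen, Gates.val, ih, litRen_val]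

/-- renaming of variables -/
def circRen (C : Circuit n) : Circuit n' := ⟨C.size, gatesRen f C.gates, litRen f C.out⟩

lemma circRen_eval (C : Circuit n) (x : Fin n' → Bool) :
    (circRen f C).eval x = C.eval (x ∘ f) := by
  unfold Circuit.eval circRen
  rw [litRen_val, gatesRen_val]

end Ren

section Emb

variable {n n' : ℕ} (hn : n' ≤ n) (h0 : 0 < n')

/-- the first coordinates -/
def res (u : Fin n → Bool) : Fin n' → Bool := u ∘ Fin.castLE hn

/-- the further coordinates are copies of the first one -/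
def rep (i : Fin n) : Fin n' := if h : i.val < n' then ⟨i.val, h⟩ else ⟨0, h0⟩

lemma res_rep (x : Fin n' → Bool) : res hn (x ∘ rep h0) = x := by
  funext i
  unfold res rep
  simp

/-- the substitution for an entry -/
def entS (p : (Fin n → Bool) × Bool) : ((Fin n' → Bool) × Bool) ⊕ Bool :=
  if p.1 = res hn p.1 ∘ rep h0 then .inl (res hn p.1, p.2) else .inr true

/-- the substitution -/
noncomputable def subS (i : Fin (2 ^ (n + 1))) : ((Fin n' → Bool) × Bool) ⊕ Bool :=
  entS hn h0 ((entryNo n).symm i)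

theorem fits_iff (s : ℕ) (z : (Fin n' → Bool) × Bool → Bool) :
    Fits n s (fun p => sx (subS hn h0) z (entryNo n p)) ↔ Fits n' s z := by
  have hval : ∀ p, sx (subS hn h0) z (entryNo n p) = sv z (entS hn h0 p) := by
    intro p
    unfold sx subS
    rw [Equiv.symm_apply_apply]
  constructor
  · rintro ⟨C, h1, h2⟩
    refine ⟨circRen (rep h0) C, h1, fun x => ?_⟩
    have h3 := h2 (x ∘ rep h0)
    beta_reduce at h3
    rw [hval] at h3
    unfold entS at h3
    rw [if_pos (by rw [res_rep]), res_rep] at h3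
    rw [circRen_eval]
    exact h3
  · rintro ⟨C, h1, h2⟩
    refine ⟨circRen (Fin.castLE hn) C, h1, fun u => ?_⟩
    beta_reduce
    rw [hval, circRen_eval]
    unfold entS
    split_ifs with h
    · exact h2 (res hn u)
    · rfl

theorem ones_ge (z : (Fin n' → Bool) × Bool → Bool) :
    2 ^ (n + 1) ≤ ones (sx (subS hn h0) z) + 2 ^ (n' + 1) := by
  classical
  have h1 : (Finset.univ.filter (fun i => ¬ sx (subS hn h0) z i = true)).card ≤
      2 ^ (n' + 1) := by
    have h2 : (Finset.univ : Finset ((Fin n' → Bool) × Bool)).card = 2 ^ (n' + 1) := by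
      simp [pow_succ]
    rw [← h2]
    refine Finset.card_le_card_of_injOn
      (fun i => (res hn ((entryNo n).symm i).1, ((entryNo n).symm i).2))
      (fun _ _ => Finset.mem_univ _) ?_
    have hgood : ∀ i, ¬ sx (subS hn h0) z i = true →
        ((entryNo n).symm i).1 = res hn ((entryNo n).symm i).1 ∘ rep h0 := by
      intro i hi
      by_contra hcon
      apply hi
      unfold sx subS entS
      rw [if_neg hcon]
      rfl
    intro i hi j hj hij
    rw [Finset.mem_coe, Finset.mem_filter] at hi hj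
    have gi := hgood i hi.2
    have gj := hgood j hj.2
    simp only [Prod.mk.injEq] at hij
    apply (entryNo n).symm.injective
    apply Prod.ext
    · rw [gi, gj, hij.1]
    · exact hij.2
  have h3 := Finset.card_filter_add_card_filter_not (s := (Finset.univ : Finset (Fin (2 ^ (n + 1)))))
    (fun i => sx (subS hn h0) z i = true)
  rw [Finset.card_univ, Fintype.card_fin] at h3
  unfold ones
  omega

end Emb

section Build

variable {m : ℕ} {V : Type} (ν : Fin m → V ⊕ Bool)

/-- the operand of a node -/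
def mop (s : ℕ) : H540R2.Node m → MOp V s
  | .var i => match ν i with
    | .inl a => .var a
    | .inr b => .const b
  | .const b => .const b
  | .gate j => if h : j < s then .gate ⟨j, h⟩ else .const false

/-- the first `s` gates -/
def mbuild (C : H540R2.Circuit m) : (s : ℕ) → MonoGates V s
  | 0 => .nil
  | s + 1 => match C.gate s with
    | .and a b => .snoc (mbuild C s) false (mop ν s a) (mop ν s b)
    | .or a b => .snoc (mbuild C s) true (mop ν s a) (mop ν s b)
    | .not _ => .snoc (mbuild C s) false (.const false) (.const false)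

lemma mop_val (s : ℕ) (z : V → Bool) (v : Fin s → Bool) (w : ℕ → Bool)
    (h : ∀ j (hj : j < s), v ⟨j, hj⟩ = w j) (a : H540R2.Node m) :
    (mop ν s a).val z v = a.eval (sx ν z) (fun j => if _h : j < s then w j else false) := by
  cases a with
  | var i =>
    show (mop ν s (.var i)).val z v = sv z (ν i)
    cases hν : ν i with
    | inl a => simp [mop, hν, MOp.val, sv]
    | inr b => simp [mop, hν, MOp.val, sv]
  | const b => rfl
  | gate j =>
    by_cases hj : j < s
    · simp only [mop, hj, dite_true, MOp.val, H540R2.Node.eval]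
      exact h j hj
    · simp only [mop, hj, dite_false, MOp.val, H540R2.Node.eval]

lemma mbuild_val (C : H540R2.Circuit m) (hC : C.Monotone) (z : V → Bool) : ∀ (s : ℕ),
    s ≤ C.size → ∀ j (hj : j < s), (mbuild ν C s).val z ⟨j, hj⟩ = C.val (sx ν z) j := by
  intro s
  induction s with
  | zero => intro _ j hj; exact absurd hj (Nat.not_lt_zero _)
  | succ s ih =>
    intro hs j hj
    have ih' := ih (by omega)
    have key : ∀ a : H540R2.Node m, (mop ν s a).val z ((mbuild ν C s).val z) =
        a.eval (sx ν z) (fun j => if _h : j < s then C.val (sx ν z) j else false) :=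
      fun a => mop_val ν s z _ _ ih' a
    rcases Nat.lt_succ_iff_lt_or_eq.1 hj with h1 | h1
    · rw [← ih' j h1]
      cases hg : C.gate s with
      | and a b =>
        simp only [mbuild, hg, MonoGates.val]
        exact Fin.snoc_castSucc (α := fun _ => Bool) _ _ ⟨j, h1⟩
      | or a b =>
        simp only [mbuild, hg, MonoGates.val]
        exact Fin.snoc_castSucc (α := fun _ => Bool) _ _ ⟨j, h1⟩
      | not a =>
        simp only [mbuild, hg, MonoGates.val]
        exact Fin.snoc_castSucc (α := fun _ => Bool) _ _ ⟨j, h1⟩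
    · subst h1
      rw [H540R2.Circuit.val]
      cases hg : C.gate j with
      | and a b =>
        simp only [mbuild, hg, MonoGates.val, H540R2.Gate.eval]
        rw [← key a, ← key b]
        exact Fin.snoc_last (α := fun _ => Bool) _ _
      | or a b =>
        simp only [mbuild, hg, MonoGates.val, H540R2.Gate.eval]
        rw [← key a, ← key b]
        exact Fin.snoc_last (α := fun _ => Bool) _ _
      | not a => exact absurd hg (hC j (by omega) a)

/-- the whole circuit -/
def mcirc (C : H540R2.Circuit m) : MonoCircuit V := ⟨C.size, mbuild ν C C.size, mop ν C.size C.out⟩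

theorem mcirc_eval (C : H540R2.Circuit m) (hC : C.Monotone) (z : V → Bool) :
    (mcirc ν C).eval z = C.eval (sx ν z) := by
  unfold MonoCircuit.eval mcirc
  rw [mop_val ν C.size z _ (C.val (sx ν z)) (mbuild_val ν C hC z C.size le_rfl)]
  unfold H540R2.Circuit.eval
  cases h : C.out with
  | var i => rfl
  | const b => rfl
  | gate j =>
    have hj : j < C.size := C.out_lt j (by rw [h]; simp [H540R2.Node.wires])
    simp only [H540R2.Node.eval, hj, dite_true]

end Build

/-- **Monotone circuits for Partial MCSP on windows.** -/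
theorem low {n n' s W : ℕ} (hn : n' ≤ n) (hn' : 2560 ≤ n') (hs₁ : 2 ^ (n' / 4) ≤ s)
    (hs₂ : s ≤ 2 ^ (n' / 2)) (hW : 2 ^ (n' + 1) < W) (D : H540R2.Circuit (2 ^ (n + 1)))
    (hD : D.nots = 0)
    (h : ∀ y, 2 ^ (n + 1) ≤ ones y + 2 ^ (n' + 1) → ones y < 2 ^ (n + 1) - 2 ^ (n' + 1) + W →
      Right s D y) : 2 ^ 2 ^ (n' / 256 - 2) ≤ D.size := by
  have h0 : 0 < n' := by omega
  have hm : D.Monotone := (Pool.Agent.W953.NW.nots_eq_zero_iff _).mp hD
  refine Pool.Agent.Results.MP_d2e5f8_lc.MonotoneExp.result n' s hn' hs₁ hs₂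
    (mcirc (subS hn h0) D) fun T => ?_
  rw [mcirc_eval _ D hm, ← fits_allowed, ← fits_iff hn h0 s (allowed T)]
  refine h _ (ones_ge hn h0 _) ?_
  have h1 : ones (sx (subS hn h0) (allowed T)) ≤ 2 ^ (n + 1) := by
    unfold ones
    refine (Finset.card_le_univ _).trans ?_
    rw [Fintype.card_fin]
  have h2 : 2 ^ (n' + 1) ≤ 2 ^ (n + 1) := Nat.pow_le_pow_right (by norm_num) (by omega)
  omega

theorem not_on (W : ℕ → ℕ) (d : ℕ) (h : ∃ᶠ n : ℕ in Filter.atTop, 2 ^ n ≤ W n ^ d) :
    ¬ EasyOn (fun _ => 0) W := by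
  rintro ⟨c, hc⟩
  obtain ⟨A, hA⟩ : ∃ A, A = 260 * (d + 1) * (c + 1) + 5 := ⟨_, rfl⟩
  obtain ⟨T, hT0⟩ : ∃ T, T = 256 * (2 * A + 4) + 2560 := ⟨_, rfl⟩
  obtain ⟨n, hnT, hn⟩ := Filter.frequently_atTop.1 h ((T + 3) * (d + 1))
  have hn0 : 1 ≤ n := le_trans (Nat.mul_pos (by omega) (by omega)) hnT
  obtain ⟨L, hL⟩ : ∃ L, L = Nat.log 2 (W n) := ⟨_, rfl⟩
  have hW1 : 1 ≤ W n := by
    rcases Nat.eq_zero_or_pos (W n) with h0 | h0
    · rw [h0] at hn
      rcases Nat.eq_zero_or_pos d with h1 | h1
      · rw [h1, pow_zero] at hn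
        have : 2 ^ 1 ≤ 2 ^ n := Nat.pow_le_pow_right (by norm_num) hn0
        omega
      · rw [zero_pow (by omega)] at hn
        have : 1 ≤ 2 ^ n := Nat.one_le_two_pow
        omega
    · exact h0
  have hnL : n < (L + 1) * d := by
    have h1 : W n < 2 ^ (L + 1) := by
      rw [hL]
      exact Nat.lt_pow_succ_log_self (by norm_num) _
    have hd : d ≠ 0 := by
      rintro rfl
      rw [pow_zero] at hn
      have : 2 ^ 1 ≤ 2 ^ n := Nat.pow_le_pow_right (by norm_num) hn0
      omega
    have h2 : 2 ^ n < 2 ^ ((L + 1) * d) := by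
      calc 2 ^ n ≤ W n ^ d := hn
        _ < (2 ^ (L + 1)) ^ d := Nat.pow_lt_pow_left h1 hd
        _ = 2 ^ ((L + 1) * d) := by rw [← pow_mul]
    exact (Nat.pow_lt_pow_iff_right (by norm_num : 1 < 2)).1 h2
  obtain ⟨n', hn'⟩ : ∃ n', n' = min (L - 2) n := ⟨_, rfl⟩
  have hnn : n ≤ (n' + 3) * (d + 1) := by
    rcases le_total (L - 2) n with h1 | h1
    · rw [min_eq_left h1] at hn'
      calc n ≤ (L + 1) * d := hnL.le
        _ ≤ (n' + 3) * (d + 1) := Nat.mul_le_mul (by omega) (by omega)
    · rw [min_eq_right h1] at hn'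
      rw [hn']
      nlinarith
  have hT' : T ≤ n' := by
    by_contra hcon
    rw [not_le] at hcon
    have h1 : n' + 3 < T + 3 := Nat.add_lt_add_right hcon 3
    have : (n' + 3) * (d + 1) < (T + 3) * (d + 1) :=
      Nat.mul_lt_mul_of_pos_right h1 (Nat.succ_pos d)
    omega
  have hT : 256 * (2 * A + 4) + 2560 ≤ n' := by
    rw [← hT0]
    exact hT'
  have hn'n : n' ≤ n := by rw [hn']; exact min_le_right _ _
  have hWn : 2 ^ (n' + 1) < W n := by
    have h1 : n' + 1 < L := by
      have : n' ≤ L - 2 := by rw [hn']; exact min_le_left _ _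
      omega
    calc 2 ^ (n' + 1) < 2 ^ L := Nat.pow_lt_pow_right (by norm_num) h1
      _ ≤ W n := by rw [hL]; exact Nat.pow_log_le_self 2 (by omega)
  have hle : 2 ^ (n' + 1) ≤ 2 ^ (n + 1) := Nat.pow_le_pow_right (by norm_num) (by omega)
  obtain ⟨D, d1, d2, d3⟩ := hc n (2 ^ (n' / 2)) (2 ^ (n + 1) - 2 ^ (n' + 1))
  have hlow := low (s := 2 ^ (n' / 2)) hn'n (by omega)
    (Nat.pow_le_pow_right (by norm_num) (by omega)) le_rfl hWn D (Nat.le_zero.1 d1)
    (fun y hy1 hy2 => d3 y (by omega) hy2)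
  have h3 : 2 ^ (n' / 256 - 2) ≤ (n + 1) * c := by
    have : 2 ^ 2 ^ (n' / 256 - 2) ≤ 2 ^ ((n + 1) * c) := by
      rw [pow_mul]
      exact hlow.trans d2
    exact (Nat.pow_le_pow_iff_right (by norm_num : 1 < 2)).1 this
  obtain ⟨q, hq⟩ : ∃ q, q = n' / 256 := ⟨_, rfl⟩
  obtain ⟨m, hm⟩ : ∃ m, m = (q - 2) / 2 := ⟨_, rfl⟩
  rw [← hq] at h3
  have hqA : 2 * A + 4 ≤ q := by omega
  have hmA : A ≤ m := by omega
  have h4 : q + 1 ≤ 2 ^ m := by
    have := Pool.Agent.Results.MP_d2e5f8_lc.MonotoneExp.pow_ge_lin' m (by omega)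
    omega
  have h5 : A < 2 ^ m := lt_of_lt_of_le Nat.lt_two_pow_self
    (Nat.pow_le_pow_right (by norm_num) hmA)
  have h6 : A * (q + 1) < 2 ^ (q - 2) := by
    calc A * (q + 1) < 2 ^ m * 2 ^ m :=
          lt_of_lt_of_le (Nat.mul_lt_mul_of_pos_right h5 (Nat.succ_pos q))
            (Nat.mul_le_mul_left _ h4)
      _ = 2 ^ (m + m) := by rw [← pow_add]
      _ ≤ 2 ^ (q - 2) := Nat.pow_le_pow_right (by norm_num) (by omega)
  have h7 : (n + 1) * c ≤ A * (q + 1) := by
    have e1 : n' + 3 ≤ 259 * (q + 1) := by omega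
    calc (n + 1) * c ≤ (259 * (q + 1) * (d + 1) + 1) * c :=
          Nat.mul_le_mul_right _ (Nat.succ_le_succ (hnn.trans (Nat.mul_le_mul_right _ e1)))
      _ ≤ (260 * (q + 1) * (d + 1)) * (c + 1) := by
          refine Nat.mul_le_mul ?_ (Nat.le_succ c)
          have : 1 ≤ (q + 1) * (d + 1) := Nat.mul_pos (Nat.succ_pos q) (Nat.succ_pos d)
          nlinarith
      _ = 260 * (d + 1) * (c + 1) * (q + 1) := by ring
      _ ≤ A * (q + 1) := by
          refine Nat.mul_le_mul_right _ ?_
          rw [hA]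
          exact Nat.le_add_right _ _
  omega

end Pool.Agent.W953.PM
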